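import Mathlib

set_option autoImplicit false

namespace Pool.Agent.H.MP_c3854d_co

open Finset Equiv

abbrev P := Equiv.Perm ℕ

/-- adjacent transposition -/
def s (i : ℕ) : P := swap i (i + 1)

lemma s_apply (i p : ℕ) : s i p = if p = i then i + 1 else if p = i + 1 then i else p := by
  simp [s, swap_apply_def]

lemma s_i (i : ℕ) : s i i = i + 1 := by simp [s]
lemma s_i1 (i : ℕ) : s i (i + 1) = i := by simp [s]
lemma s_ne {i p : ℕ} (h : p ≠ i) (h' : p ≠ i + 1) : s i p = p := by simp [s_apply, h, h']
lemma s_s (i : ℕ) : s i * s i = 1 := by simp [s]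
lemma mul_s_s (w : P) (i : ℕ) : w * s i * s i = w := by rw [mul_assoc, s_s, mul_one]

lemma s_comm {i j : ℕ} (h : i + 2 ≤ j) : s i * s j = s j * s i := by
  ext p; simp only [Perm.mul_apply, s_apply]; split_ifs <;> omega

lemma s_braid (i : ℕ) : s i * s (i + 1) * s i = s (i + 1) * s i * s (i + 1) := by
  ext p; simp only [Perm.mul_apply, s_apply]; split_ifs <;> omega

section ops
variable {B : Type} [CommRing B]

/-- nilCoxeter generator acting on coefficient families -/
def U (i : ℕ) : Module.End B (P → B) where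
  toFun F := fun w => if w (i + 1) < w i then F (w * s i) else 0
  map_add' F G := by ext w; simp only [Pi.add_apply]; split_ifs <;> simp
  map_smul' c F := by ext w; simp only [Pi.smul_apply, RingHom.id_apply]; split_ifs <;> simp

lemma U_apply (i : ℕ) (F : P → B) (w : P) :
    U i F w = if w (i + 1) < w i then F (w * s i) else 0 := rfl

lemma U_sq (i : ℕ) : (U i : Module.End B (P → B)) * U i = 0 := by
  ext F w
  simp only [Module.End.mul_apply, U_apply, Perm.mul_apply, s_i, s_i1, LinearMap.zero_apply,
    Pi.zero_apply]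
  split_ifs <;> first | rfl | omega

lemma U_comm {i j : ℕ} (h : i + 2 ≤ j) :
    (U i : Module.End B (P → B)) * U j = U j * U i := by
  ext F w
  have e1 : s i j = j := s_ne (by omega) (by omega)
  have e2 : s i (j + 1) = j + 1 := s_ne (by omega) (by omega)
  have e3 : s j i = i := s_ne (by omega) (by omega)
  have e4 : s j (i + 1) = i + 1 := s_ne (by omega) (by omega)
  simp only [Module.End.mul_apply, U_apply, Perm.mul_apply, e1, e2, e3, e4, mul_assoc, s_comm h]
  split_ifs <;> rfl

lemma U_braid (i : ℕ) :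
    (U i : Module.End B (P → B)) * U (i + 1) * U i = U (i + 1) * U i * U (i + 1) := by
  ext F w
  have e1 : s i (i + 1 + 1) = i + 1 + 1 := s_ne (by omega) (by omega)
  have e2 : s (i + 1) i = i := s_ne (by omega) (by omega)
  have e3 : w * s i * s (i + 1) * s i = w * s (i + 1) * s i * s (i + 1) := by
    simp only [mul_assoc]; rw [← mul_assoc (s i), s_braid, mul_assoc]
  simp only [Module.End.mul_apply, U_apply, Perm.mul_apply, e1, e2, e3, s_i, s_i1]
  split_ifs <;> first | rfl | omega

def h (i : ℕ) (t : B) : Module.End B (P → B) := 1 + t • U i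

lemma h_apply (i : ℕ) (t : B) (F : P → B) (w : P) : h i t F w = F w + t * U i F w := by
  simp [h]

lemma h_zero (i : ℕ) : h i (0 : B) = 1 := by simp [h]

lemma h_add (i : ℕ) (a b : B) : h i a * h i b = h i (a + b) := by
  simp only [h, mul_add, add_mul, one_mul, mul_one, smul_mul_smul_comm, U_sq, smul_zero, add_smul]
  abel

lemma h_comm {i j : ℕ} (hij : i + 2 ≤ j) (a b : B) : h i a * h j b = h j b * h i a := by
  simp only [h, mul_add, add_mul, one_mul, mul_one, smul_mul_smul_comm, U_comm hij, mul_comm a b]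
  abel

lemma h_yb (k : ℕ) (a b : B) :
    h k a * h (k + 1) (a + b) * h k b = h (k + 1) b * h k (a + b) * h (k + 1) a := by
  have e := U_braid (B := B) k
  simp only [h, mul_add, add_mul, one_mul, mul_one, smul_mul_smul_comm, U_sq, smul_zero, e]
  module

/-- product of operators along a list of cells -/
def op (x y : ℕ → B) (L : List (ℕ × ℕ)) : Module.End B (P → B) :=
  (L.map (fun p => h (p.1 + p.2) (x p.1 + y p.2))).prod

lemma op_nil (x y : ℕ → B) : op x y [] = 1 := rfl
lemma op_cons (x y : ℕ → B) (p : ℕ × ℕ) (L : List (ℕ × ℕ)) :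
    op x y (p :: L) = h (p.1 + p.2) (x p.1 + y p.2) * op x y L := by simp [op]
lemma op_append (x y : ℕ → B) (L L' : List (ℕ × ℕ)) :
    op x y (L ++ L') = op x y L * op x y L' := by simp [op]

lemma op_congr {x x' : ℕ → B} (y : ℕ → B) (L : List (ℕ × ℕ)) (hx : ∀ p ∈ L, x p.1 = x' p.1) :
    op x y L = op x' y L := by
  unfold op
  congr 1
  exact List.map_congr_left fun p hp => by rw [hx p hp]

lemma op_comm_left (x y : ℕ → B) (i : ℕ) (t : B) (L : List (ℕ × ℕ))
    (hL : ∀ p ∈ L, i + 2 ≤ p.1 + p.2 ∨ p.1 + p.2 + 2 ≤ i) :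
    h i t * op x y L = op x y L * h i t := by
  induction L with
  | nil => simp [op_nil]
  | cons p L ih =>
    rw [op_cons, ← mul_assoc, mul_assoc _ (op x y L), ← ih fun q hq => hL q (by simp [hq]),
      ← mul_assoc]
    congr 1
    rcases hL p (by simp) with h1 | h1
    · exact h_comm h1 _ _
    · exact (h_comm h1 _ _).symm

lemma op_ind (x y : ℕ → B) (Q : (P → B) → Prop) (L : List (ℕ × ℕ))
    (hQ : ∀ p ∈ L, ∀ F, Q F → Q (h (p.1 + p.2) (x p.1 + y p.2) F)) (F : P → B) (hF : Q F) :
    Q (op x y L F) := by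
  induction L with
  | nil => exact hF
  | cons p L ih =>
    rw [op_cons, Module.End.mul_apply]
    exact hQ p (by simp) _ (ih fun q hq => hQ q (by simp [hq]))

lemma op_map {B' : Type} [CommRing B'] (φ : B →+* B') (x y : ℕ → B) (L : List (ℕ × ℕ))
    (F : P → B) (w : P) : φ (op x y L F w) = op (φ ∘ x) (φ ∘ y) L (φ ∘ F) w := by
  induction L generalizing w with
  | nil => rfl
  | cons p L ih =>
    simp only [op_cons, Module.End.mul_apply, h_apply, U_apply, map_add, map_mul, ih,
      Function.comp_apply, apply_ite φ, map_zero]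

lemma op_zero (L : List (ℕ × ℕ)) : op (0 : ℕ → B) 0 L = 1 := by
  induction L with
  | nil => rfl
  | cons p L ih => rw [op_cons, ih]; simp [h_zero]

end ops

def rowL (i m : ℕ) : List (ℕ × ℕ) := (List.range m).map (fun j => (i, j))

lemma rowL_succ (i m : ℕ) : rowL i (m + 1) = rowL i m ++ [(i, m)] := by
  simp [rowL, List.range_succ]

lemma mem_rowL {i m : ℕ} {p : ℕ × ℕ} : p ∈ rowL i m ↔ p.1 = i ∧ p.2 < m := by
  obtain ⟨a, b⟩ := p
  simp only [rowL, List.mem_map, List.mem_range, Prod.mk.injEq]
  constructor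
  · rintro ⟨j, h1, h2, h3⟩; omega
  · rintro ⟨h1, h2⟩; exact ⟨b, h2, h1.symm, rfl⟩

/-- rows `k + r - 1`, ..., `k` -/
def seg (N k : ℕ) : ℕ → List (ℕ × ℕ)
  | 0 => []
  | r + 1 => rowL (k + r) (N - 1 - (k + r)) ++ seg N k r

lemma seg_add (N k a b : ℕ) : seg N k (a + b) = seg N (k + a) b ++ seg N k a := by
  induction b with
  | zero => simp [seg]
  | succ b ih => rw [← add_assoc, seg, seg, ih, List.append_assoc, add_assoc]

lemma mem_seg {N k r : ℕ} {p : ℕ × ℕ} (hp : p ∈ seg N k r) :
    k ≤ p.1 ∧ p.1 < k + r ∧ p.1 + p.2 + 1 < N := by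
  induction r with
  | zero => simp [seg] at hp
  | succ r ih =>
    rw [seg, List.mem_append, mem_rowL] at hp
    rcases hp with hp | hp
    · omega
    · have := ih hp; omega

section main
variable {B : Type} [CommRing B]

lemma op_row_succ (x y : ℕ → B) (i m : ℕ) :
    op x y (rowL i (m + 1)) = op x y (rowL i m) * h (i + m) (x i + y m) := by
  rw [rowL_succ, op_append, op_cons, op_nil, mul_one]

lemma row_swap (x x' y : ℕ → B) (i : ℕ) (h1 : x' i = x (i + 1)) (h2 : x' (i + 1) = x i) (m : ℕ) :
    h i (x (i + 1) - x i) * op x y (rowL (i + 1) m) * op x y (rowL i m) =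
      op x' y (rowL (i + 1) m) * op x' y (rowL i m) * h (i + m) (x (i + 1) - x i) := by
  induction m with
  | zero => simp [rowL, op_nil]
  | succ m ih =>
    have c : ∀ (z : ℕ → B) (t : B), h (i + 1 + m) t * op z y (rowL i m) =
        op z y (rowL i m) * h (i + 1 + m) t := fun z t =>
      op_comm_left z y _ t _ fun p hp => by rw [mem_rowL] at hp; omega
    have yb := h_yb (i + m) (x (i + 1) - x i) (x i + y m)
    have e1 : x (i + 1) - x i + (x i + y m) = x (i + 1) + y m := by ring
    have e2 : i + m + 1 = i + 1 + m := by omega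
    rw [e1, e2] at yb
    simp only [op_row_succ, h1, h2]
    calc _ = h i (x (i + 1) - x i) * op x y (rowL (i + 1) m) *
          (h (i + 1 + m) (x (i + 1) + y m) * op x y (rowL i m)) * h (i + m) (x i + y m) := by
          simp only [mul_assoc]
      _ = (h i (x (i + 1) - x i) * op x y (rowL (i + 1) m) * op x y (rowL i m)) *
          h (i + 1 + m) (x (i + 1) + y m) * h (i + m) (x i + y m) := by
          rw [c]; simp only [mul_assoc]
      _ = op x' y (rowL (i + 1) m) * op x' y (rowL i m) * (h (i + m) (x (i + 1) - x i) *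
          h (i + 1 + m) (x (i + 1) + y m) * h (i + m) (x i + y m)) := by
          rw [ih]; simp only [mul_assoc]
      _ = op x' y (rowL (i + 1) m) * (op x' y (rowL i m) * h (i + 1 + m) (x i + y m)) *
          h (i + m) (x (i + 1) + y m) * h (i + 1 + m) (x (i + 1) - x i) := by
          rw [yb]; simp only [mul_assoc]
      _ = _ := by
          rw [← c, ← e2]; simp only [mul_assoc]; rfl

/-- the full staircase -/
def HL (N : ℕ) : List (ℕ × ℕ) := seg N 0 N

lemma H_swap (x y : ℕ → B) (N i : ℕ) (hi : i + 1 < N) :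
    h i (x (i + 1) - x i) * op x y (HL N) = op (x ∘ s i) y (HL N) := by
  obtain ⟨r, rfl⟩ : ∃ r, N = i + 2 + r := ⟨N - (i + 2), by omega⟩
  set N := i + 2 + r with hN
  have e : HL N = seg N (i + 2) r ++ (rowL (i + 1) r ++ (rowL i (r + 1) ++ seg N 0 i)) := by
    have e1 : N - 1 - (i + 1) = r := by omega
    have e2 : N - 1 - i = r + 1 := by omega
    unfold HL
    conv_lhs => rw [hN, seg_add, ← hN]
    simp only [seg, zero_add, e1, e2]
  have c1 : op (x ∘ s i) y (seg N (i + 2) r) = op x y (seg N (i + 2) r) :=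
    op_congr _ _ fun p hp => by
      have := mem_seg hp
      simp [s_ne (show p.1 ≠ i by omega) (show p.1 ≠ i + 1 by omega)]
  have c2 : op (x ∘ s i) y (seg N 0 i) = op x y (seg N 0 i) :=
    op_congr _ _ fun p hp => by
      have := mem_seg hp
      simp [s_ne (show p.1 ≠ i by omega) (show p.1 ≠ i + 1 by omega)]
  have c3 := op_comm_left x y i (x (i + 1) - x i) (seg N (i + 2) r) fun p hp => by
    have := mem_seg hp; omega
  have c4 := row_swap x (x ∘ s i) y i (by simp [s_i]) (by simp [s_i1]) r
  have c5 := h_add (i + r) (x (i + 1) - x i) (x i + y r)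
  have e1 : x (i + 1) - x i + (x i + y r) = (x ∘ s i) i + y r := by simp [s_i]; ring
  rw [e1] at c5
  rw [e]
  simp only [op_append, c1, c2, op_row_succ]
  rw [← mul_assoc, c3, mul_assoc, ← c5]
  congr 1
  simp only [← mul_assoc]
  rw [c4]

open Classical in
/-- point mass -/
noncomputable def dl (v : P) : P → B := fun w => if w = v then 1 else 0

lemma U_dl {v : P} {i : ℕ} (hv : v i < v (i + 1)) : U i (dl v : P → B) = dl (v * s i) := by
  ext w
  simp only [U_apply, dl]
  by_cases hw : w = v * s i
  · subst hw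
    simp [s_i, s_i1, hv, mul_s_s]
  · have : w * s i ≠ v := fun e => hw (by rw [← e, mul_s_s])
    simp [hw, this]

lemma op_fiber (x y : ℕ → B) (L : List (ℕ × ℕ)) (q c : ℕ)
    (hL : ∀ p ∈ L, q ≠ p.1 + p.2 ∧ q ≠ p.1 + p.2 + 1) (F : P → B)
    (hF : ∀ w, w q = c → F w = 0) : ∀ w, w q = c → op x y L F w = 0 := by
  refine op_ind x y (fun F => ∀ w, w q = c → F w = 0) L ?_ F hF
  intro p hp F hF w hw
  rw [h_apply, U_apply, hF w hw, hF (w * s (p.1 + p.2))
    (by rw [Perm.mul_apply, s_ne (hL p hp).1 (hL p hp).2, hw])]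
  simp

lemma row_dl (x y : ℕ → B) (k m : ℕ) : ∀ v : P, (∀ t, t < m → v (k + t) < v (k + t + 1)) →
    ∃ v' : P, v' k = v (k + m) ∧ (∀ t, t < m → v' (k + t + 1) = v (k + t)) ∧
      (∀ p, p < k ∨ k + m < p → v' p = v p) ∧
      ∀ w, w k = v (k + m) →
        op x y (rowL k m) (dl v) w = (∏ j ∈ range m, (x k + y j)) * dl v' w := by
  induction m with
  | zero => intro v _; exact ⟨v, rfl, by simp, by simp, by simp [rowL, op_nil]⟩
  | succ m ih =>
    intro v hv
    have hm := hv m (by omega)
    obtain ⟨v', a1, a2, a3, a4⟩ := ih (v * s (k + m)) (by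
      intro t ht
      have h1 := hv t (by omega)
      rw [Perm.mul_apply, Perm.mul_apply, s_ne (by omega) (by omega)]
      by_cases e : t + 1 = m
      · have e' : k + t + 1 = k + m := by omega
        rw [e'] at h1 ⊢
        rw [s_i]; omega
      · rw [s_ne (by omega) (by omega)]; exact h1)
    simp only [Perm.mul_apply, s_i] at a1 a2 a3 a4
    refine ⟨v', a1, fun t ht => ?_, fun p hp => ?_, fun w hw => ?_⟩
    · by_cases e : t = m
      · subst e; rw [a3 _ (by omega), s_i1]
      · rw [a2 t (by omega), s_ne (by omega) (by omega)]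
    · rw [a3 p (by omega), s_ne (by omega) (by omega)]
    · rw [op_row_succ, Module.End.mul_apply]
      have e : h (k + m) (x k + y m) (dl v) = dl v + (x k + y m) • dl (v * s (k + m)) := by
        simp [h, U_dl hm]
      rw [e, map_add, map_smul, Pi.add_apply, Pi.smul_apply, a4 w hw, prod_range_succ,
        op_fiber x y (rowL k m) (k + m + 1) (w (k + m + 1))
          (fun p hp => by rw [mem_rowL] at hp; omega) (dl v) _ w rfl]
      · simp only [smul_eq_mul]; ring
      · intro w' hw'
        have : w' ≠ v := by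
          rintro rfl
          have : w k = w (k + m + 1) := by rw [hw, ← hw']; rfl
          have := w.injective this
          omega
        simp [dl, this]

lemma top_seg (x y : ℕ → B) (N r : ℕ) : ∀ (k : ℕ) (v w : P), k + r = N →
    (∀ p, k ≤ p → p + 1 < N → v p < v (p + 1)) → (∀ p, p < k ∨ N ≤ p → w p = v p) →
    (∀ p q, k ≤ p → k ≤ q → p + q + 1 = N + k → w p = v q) →
    op x y (seg N k r) (dl v) w = ∏ i ∈ Ico k N, ∏ j ∈ range (N - 1 - i), (x i + y j) := by
  induction r with
  | zero =>
    intro k v w hk _ h2 _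
    have : w = v := by ext p; exact h2 p (by omega)
    have hk' : k = N := by omega
    simp [seg, op_nil, dl, this, hk']
  | succ r ih =>
    intro k v w hk h1 h2 h3
    have e : seg N k (r + 1) = seg N (k + 1) r ++ rowL k r := by
      have : N - 1 - k = r := by omega
      rw [add_comm r 1, seg_add]; simp [seg, this]
    obtain ⟨v', a1, a2, a3, a4⟩ := row_dl x y k r v fun t ht => h1 _ (by omega) (by omega)
    have hw : w k = v (k + r) := h3 _ _ le_rfl (by omega) (by omega)
    have a2' : ∀ p, k + 1 ≤ p → p < N → v' p = v (p - 1) := by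
      intro p hp hp'
      have := a2 (p - k - 1) (by omega)
      rwa [show k + (p - k - 1) + 1 = p by omega, show k + (p - k - 1) = p - 1 by omega] at this
    have z := op_fiber x y (seg N (k + 1) r) k (v (k + r))
      (fun p hp => by have := mem_seg hp; omega)
      (op x y (rowL k r) (dl v) - (∏ j ∈ range r, (x k + y j)) • dl v')
      (fun w' hw' => by simp [a4 w' hw']) w hw
    rw [map_sub, map_smul, Pi.sub_apply, Pi.smul_apply, sub_eq_zero] at z
    rw [e, op_append, Module.End.mul_apply, z, ih (k + 1) v' w (by omega),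
      prod_eq_prod_Ico_succ_bot (show k < N by omega), show N - 1 - k = r by omega, smul_eq_mul]
    · intro p hp hp'
      rw [a2' p hp (by omega), a2' (p + 1) (by omega) hp']
      have := h1 (p - 1) (by omega) (by omega)
      rwa [show p - 1 + 1 = p + 1 - 1 by omega] at this
    · intro p hp
      by_cases e1 : p = k
      · rw [e1, hw, a1]
      · rw [h2 p (by omega), a3 p (by omega)]
    · intro p q hp hq hpq
      rw [a2' q hq (by omega)]
      exact h3 p (q - 1) (by omega) (by omega) (by omega)

/-- the longest element of `S_N` -/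
def w0 (N : ℕ) : P := Function.Involutive.toPerm (fun p => if p < N then N - 1 - p else p) (by
  intro p; dsimp only; split_ifs <;> omega)

lemma w0_apply (N p : ℕ) : w0 N p = if p < N then N - 1 - p else p := rfl

lemma top (x y : ℕ → B) (N : ℕ) :
    op x y (HL N) (dl 1) (w0 N) = ∏ i ∈ range N, ∏ j ∈ range (N - 1 - i), (x i + y j) := by
  rw [HL, top_seg x y N N 0 1 (w0 N) (by simp) (by simp), range_eq_Ico]
  · intro p hp
    rw [w0_apply, if_neg (by omega)]; rfl
  · intro p q _ _ hpq
    rw [w0_apply, if_pos (by omega)]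
    show _ = q
    omega

end main

end Pool.Agent.H.MP_c3854d_co
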