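import Mathlib
import Pool.Agent.H.MP_c3854d_co.A

set_option autoImplicit false

namespace Pool.Agent.H.MP_c3854d_co

open Finset Equiv MvPolynomial

abbrev A := MvPolynomial ℕ ℤ

def InS (N : ℕ) (v : P) : Prop := ∀ p, N ≤ p → v p = p

lemma InS.lt {N : ℕ} {v : P} (h : InS N v) {p : ℕ} (hp : p < N) : v p < N := by
  by_contra hc
  have := v.injective (h (v p) (by omega))
  omega

lemma InS.mul {N : ℕ} {v w : P} (h : InS N v) (h' : InS N w) : InS N (v * w) := fun p hp => by
  rw [Perm.mul_apply, h' p hp, h p hp]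

lemma InS.inv {N : ℕ} {v : P} (h : InS N v) : InS N v⁻¹ := fun p hp => by
  rw [Perm.inv_eq_iff_eq, h p hp]

lemma InS.mono {n N : ℕ} {v : P} (h : InS n v) (hn : n ≤ N) : InS N v :=
  fun p hp => h p (by omega)

lemma InS_s {N i : ℕ} (h : i + 1 < N) : InS N (s i) := fun p hp => s_ne (by omega) (by omega)

lemma InS_w0 (N : ℕ) : InS N (w0 N) := fun p hp => by rw [w0_apply, if_neg (by omega)]

lemma InS.desc {n i : ℕ} {v : P} (h : InS n v) (hd : v (i + 1) < v i) : i + 1 < n := by
  by_contra hc
  rw [h (i + 1) (by omega)] at hd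
  by_cases e : i < n
  · have := h.lt e; omega
  · rw [h i (by omega)] at hd; omega

def pot (N : ℕ) (v : P) : ℕ := ∑ p ∈ range N, p * v p

lemma pot_s {N i : ℕ} (hi : i + 1 < N) (v : P) :
    pot N (v * s i) + v (i + 1) = pot N v + v i := by
  have key : ∀ f : ℕ → ℕ, ∑ p ∈ range N, f p =
      f i + f (i + 1) + ∑ p ∈ ((range N).erase i).erase (i + 1), f p := by
    intro f
    rw [← add_sum_erase _ f (show i ∈ range N by simp; omega),
      ← add_sum_erase _ f (show i + 1 ∈ (range N).erase i by simp; omega), add_assoc]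
  unfold pot
  rw [key, key (fun p => p * v p)]
  have : ∑ p ∈ ((range N).erase i).erase (i + 1), p * (v * s i) p =
      ∑ p ∈ ((range N).erase i).erase (i + 1), p * v p := by
    refine sum_congr rfl fun p hp => ?_
    simp only [mem_erase] at hp
    rw [Perm.mul_apply, s_ne hp.2.1 hp.1]
  rw [this]
  simp only [Perm.mul_apply, s_i, s_i1]
  ring

lemma pot_le {N : ℕ} {v : P} (h : InS N v) : pot N v ≤ N * (N * N) := by
  unfold pot
  refine (sum_le_card_nsmul _ _ (N * N) fun p hp => ?_).trans (by simp)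
  rw [mem_range] at hp
  exact Nat.mul_le_mul hp.le (h.lt hp).le

lemma eq_w0 {N : ℕ} {v : P} (h : InS N v) (hd : ∀ i, i + 1 < N → v (i + 1) < v i) :
    v = w0 N := by
  have h1 : ∀ d i, i + d < N → v (i + d) + d ≤ v i := by
    intro d
    induction d with
    | zero => simp
    | succ d ih =>
      intro i hi
      have := ih i (by omega)
      have := hd (i + d) (by omega)
      rw [show i + (d + 1) = i + d + 1 by omega]; omega
  ext p
  rw [w0_apply]
  split_ifs with hp
  · have a := h1 p 0 (by omega)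
    have b := h1 (N - 1 - p) p (by omega)
    have c := h.lt (show 0 < N by omega)
    rw [zero_add] at a
    omega
  · exact h p (by omega)

/-- divided difference families -/
def DD (n N : ℕ) (F : P → A) : Prop :=
  ∀ v, InS n v → ∀ i, i + 1 < N → (X i - X (i + 1)) * U i F v = F v - rename (s i) (F v)

lemma DD.sub {n N : ℕ} {F G : P → A} (h : DD n N F) (h' : DD n N G) : DD n N (F - G) := by
  intro v hv i hi
  rw [map_sub, Pi.sub_apply, Pi.sub_apply, mul_sub, h v hv i hi, h' v hv i hi, map_sub]
  ring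

lemma DD.sum {n N : ℕ} {ι : Type} (T : Finset ι) (c : ι → ℤ) (F : ι → P → A)
    (h : ∀ a ∈ T, DD n N (F a)) : DD n N (fun v => ∑ a ∈ T, c a • F a v) := by
  intro v hv i hi
  have : U i (fun v => ∑ a ∈ T, c a • F a v) v = ∑ a ∈ T, c a • U i (F a) v := by
    simp only [U_apply]
    split_ifs <;> simp
  rw [this, mul_sum, map_sum, ← sum_sub_distrib]
  refine sum_congr rfl fun a ha => ?_
  rw [mul_smul_comm, h a ha v hv i hi, smul_sub, map_smul]

lemma X_sub_ne (i : ℕ) : (X i - X (i + 1) : A) ≠ 0 := by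
  rw [sub_ne_zero]
  intro h
  have := X_injective h
  omega

lemma down {N : ℕ} {F : P → A} (h : DD N N F) (h0 : F (w0 N) = 0) :
    ∀ v, InS N v → F v = 0 := by
  intro v
  induction hp : pot N v using Nat.strong_induction_on generalizing v with
  | _ k ih =>
    intro hv
    by_cases hd : ∀ i, i + 1 < N → v (i + 1) < v i
    · rw [eq_w0 hv hd, h0]
    · push Not at hd
      obtain ⟨i, hi, hd⟩ := hd
      have hne : v i ≠ v (i + 1) := fun e => by have := v.injective e; omega
      have hv' := hv.mul (InS_s hi)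
      have e := pot_s hi v
      have z := ih _ (by omega) (v * s i) rfl hv'
      have := h _ hv' i hi
      rw [z, U_apply, Perm.mul_apply, Perm.mul_apply, s_i, s_i1, if_pos (by omega), mul_s_s,
        map_zero, sub_zero] at this
      exact (mul_eq_zero.1 this).resolve_left (X_sub_ne i)

noncomputable def trunc (k : ℕ) : A →ₐ[ℤ] A := aeval fun i => if i < k then X i else 0

lemma const_of_symm {N : ℕ} {p : A} (h1 : trunc (N - 1) p = p)
    (h2 : ∀ i, i + 1 < N → rename (s i) p = p) : p = C (constantCoeff p) := by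
  have key : ∀ d, trunc (N - 1 - d) p = p := by
    intro d
    induction d with
    | zero => exact h1
    | succ d ih =>
      by_cases hd : N - 1 - d = 0
      · rw [show N - 1 - (d + 1) = N - 1 - d by omega]; exact ih
      · obtain ⟨k, hk⟩ : ∃ k, N - 1 - d = k + 1 := ⟨N - 1 - d - 1, by omega⟩
        rw [show N - 1 - (d + 1) = k by omega]
        rw [hk] at ih
        have e : trunc k = (trunc (k + 1)).comp ((rename (s k)).comp (trunc (k + 1))) := by
          refine algHom_ext fun i => ?_
          simp only [trunc, AlgHom.comp_apply, aeval_X]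
          by_cases a : i < k
          · simp [a, a.le, s_ne (show i ≠ k by omega) (show i ≠ k + 1 by omega)]
          · by_cases b : i = k
            · subst b; simp [s_i]
            · simp [a, show ¬ i < k + 1 by omega]
        rw [e, AlgHom.comp_apply, AlgHom.comp_apply, ih, h2 k (by omega), ih]
  have := key N
  rw [show N - 1 - N = 0 by omega] at this
  rw [← this]
  have e : (trunc 0 : A →+* A) = (C : ℤ →+* A).comp constantCoeff := by
    refine ringHom_ext (fun r => ?_) fun i => ?_ <;> simp [trunc]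
  have e' : ∀ q, trunc 0 q = C (constantCoeff q) := fun q => RingHom.congr_fun e q
  rw [e', constantCoeff_C]

lemma up {n N : ℕ} {F : P → A} (h : DD n N F)
    (h1 : ∀ v, InS n v → trunc (N - 1) (F v) = F v)
    (h0 : ∀ v, InS n v → constantCoeff (F v) = 0) : ∀ v, InS n v → F v = 0 := by
  intro v
  induction hp : n * (n * n) - pot n v using Nat.strong_induction_on generalizing v with
  | _ k ih =>
    intro hv
    rw [const_of_symm (h1 v hv) fun i hi => ?_, h0 v hv, map_zero]
    have := h v hv i hi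
    rw [U_apply] at this
    split_ifs at this with hd
    · have hi' := hv.desc hd
      have hv' := hv.mul (InS_s hi')
      have e := pot_s hi' v
      have b := pot_le hv'
      rw [ih _ (by omega) (v * s i) rfl hv', mul_zero] at this
      exact (sub_eq_zero.1 this.symm).symm
    · rw [mul_zero] at this
      exact (sub_eq_zero.1 this.symm).symm

section gen
variable {B : Type} [CommRing B]

lemma comp_dl {B' : Type} [CommRing B'] (φ : B →+* B') (v : P) : φ ∘ dl v = dl v := by
  ext w; simp only [Function.comp_apply, dl]; split_ifs <;> simp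

lemma dd_gen (x y : ℕ → B) (N i : ℕ) (hi : i + 1 < N) (φ : B →+* B) (hx : φ ∘ x = x ∘ s i)
    (hy : φ ∘ y = y) (v : P) :
    (x i - x (i + 1)) * U i (op x y (HL N) (dl 1)) v =
      op x y (HL N) (dl 1) v - φ (op x y (HL N) (dl 1) v) := by
  rw [op_map, hx, hy, comp_dl, ← H_swap x y N i hi, Module.End.mul_apply, h_apply]
  ring

lemma fix_gen (x y : ℕ → B) (N : ℕ) (φ : B →+* B) (hx : ∀ i, i + 1 < N → φ (x i) = x i)
    (hy : φ ∘ y = y) (v : P) : φ (op x y (HL N) (dl 1) v) = op x y (HL N) (dl 1) v := by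
  rw [op_map, hy, comp_dl, op_congr (x' := x) y (HL N) fun p hp => ?_]
  have := mem_seg hp
  exact hx _ (by omega)

end gen

/-- Schubert polynomials -/
noncomputable def G (N : ℕ) : P → A := op X 0 (HL N) (dl 1)

lemma G_dd (N : ℕ) (v : P) (i : ℕ) (hi : i + 1 < N) :
    (X i - X (i + 1)) * U i (G N) v = G N v - rename (s i) (G N v) :=
  dd_gen (B := A) X 0 N i hi ((rename (s i) : A →ₐ[ℤ] A) : A →+* A) (by ext1 j; simp)
    (by ext1 j; simp) v

lemma G_trunc {n N : ℕ} (hn : n ≤ N) (v : P) : trunc (N - 1) (G n v) = G n v :=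
  fix_gen (B := A) X 0 n ((trunc (N - 1) : A →ₐ[ℤ] A) : A →+* A)
    (fun i hi => by simp [trunc, show i < N - 1 by omega]) (by ext1 j; simp) v

lemma G_const (N : ℕ) (v : P) : constantCoeff (G N v) = dl 1 v := by
  unfold G
  rw [op_map, comp_dl]
  have e1 : (constantCoeff : A →+* ℤ) ∘ X = 0 := by ext j; simp
  have e2 : (constantCoeff : A →+* ℤ) ∘ (0 : ℕ → A) = 0 := by ext j; simp
  rw [e1, e2, op_zero]; rfl

lemma G_top (N : ℕ) : G N (w0 N) = ∏ i ∈ range N, X i ^ (N - 1 - i) := by
  unfold G
  rw [top]; simp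

lemma G_DD {n N : ℕ} : DD n N (G n) := by
  intro v hv i hi
  by_cases h : i + 1 < n
  · exact G_dd n v i h
  · rw [U_apply, if_neg fun hd => h (hv.desc hd), mul_zero, eq_comm, sub_eq_zero]
    exact (fix_gen (B := A) X 0 n ((rename (s i) : A →ₐ[ℤ] A) : A →+* A)
      (fun j hj => by simp [s_ne (show j ≠ i by omega) (show j ≠ i + 1 by omega)])
      (by ext1 j; simp) v).symm

lemma G_stable {n N : ℕ} (hn : n ≤ N) (v : P) (hv : InS n v) : G n v = G N v := by
  have h2 : DD n N (G N) := fun v _ i hi => G_dd N v i hi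
  have := up (G_DD.sub h2) (fun v _ => by simp [G_trunc hn, G_trunc le_rfl])
    (fun v _ => by simp [G_const]) v hv
  exact sub_eq_zero.1 this

/-- weak order -/
def Cw (u v : P) : Prop := ∀ a b, v a < v b → u⁻¹ (v b) < u⁻¹ (v a) → b < a

lemma Cw_iff (u v : P) (i : ℕ) :
    (v (i + 1) < v i ∧ Cw u (v * s i)) ↔ (Cw u v ∧ u⁻¹ (v (i + 1)) < u⁻¹ (v i)) := by
  have hne : v i ≠ v (i + 1) := fun e => by have := v.injective e; omega
  have hne' : u⁻¹ (v i) ≠ u⁻¹ (v (i + 1)) := fun e => hne (u⁻¹.injective e)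
  have ss : ∀ a, s i (s i a) = a := fun a => by simp [s]
  constructor
  · rintro ⟨h1, h2⟩
    have k : u⁻¹ (v (i + 1)) < u⁻¹ (v i) := by
      have := h2 i (i + 1)
      simp only [Perm.mul_apply, s_i, s_i1] at this
      by_contra hc
      have := this h1 (by omega)
      omega
    refine ⟨fun a b h3 h4 => ?_, k⟩
    have := h2 (s i a) (s i b)
    simp only [Perm.mul_apply, ss] at this
    have t := this h3 h4
    by_contra hc
    have : a = i ∧ b = i + 1 := by
      simp only [s_apply] at t
      split_ifs at t <;> omega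
    rw [this.1, this.2] at h3
    omega
  · rintro ⟨h1, h2⟩
    have k : v (i + 1) < v i := by
      by_contra hc
      have := h1 i (i + 1) (by omega) h2
      omega
    refine ⟨k, fun a b h3 h4 => ?_⟩
    simp only [Perm.mul_apply] at h3 h4
    have t := h1 _ _ h3 h4
    by_contra hc
    have : a = i ∧ b = i + 1 := by
      simp only [s_apply] at t
      split_ifs at t <;> omega
    rw [this.1, this.2, s_i, s_i1] at h4
    omega

open Classical in
noncomputable def T (u : P) (F : P → A) : P → A := fun v => if Cw u v then F (u⁻¹ * v) else 0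

lemma U_T (u : P) (F : P → A) (i : ℕ) (v : P) : U i (T u F) v = T u (U i F) v := by
  have := Cw_iff u v i
  simp only [U_apply, T, Perm.mul_apply, mul_assoc]
  split_ifs <;> first | rfl | (exfalso; tauto)

lemma T_DD (u : P) (N : ℕ) : DD N N (T u (G N)) := by
  intro v _ i hi
  rw [U_T]
  unfold T
  split_ifs
  · exact G_dd N _ i hi
  · simp

lemma T_trunc (u : P) (N : ℕ) (v : P) : trunc (N - 1) (T u (G N) v) = T u (G N) v := by
  unfold T
  split_ifs
  · exact G_trunc le_rfl _
  · simp

lemma T_const (u : P) (N : ℕ) (v : P) : constantCoeff (T u (G N) v) = dl u v := by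
  by_cases h : v = u
  · subst h
    have : Cw v v := fun a b _ h => by simpa using h
    simp [T, this, G_const, dl]
  · have : u⁻¹ * v ≠ 1 := fun e => h (inv_mul_eq_one.1 e).symm
    unfold T
    split_ifs <;> simp [G_const, dl, h, this]

lemma Cw_top {N : ℕ} {u : P} (hu : InS N u) : Cw u (w0 N) := by
  intro a b h1 h2
  have hu' := hu.inv
  simp only [w0_apply] at h1 h2
  split_ifs at h1 h2 with ha hb hb
  · omega
  · have := hu'.lt (show N - 1 - a < N by omega)
    rw [hu' b (by omega)] at h2
    omega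
  · omega
  · rw [hu' a (by omega), hu' b (by omega)] at h2
    omega

/-- elementary symmetric polynomial in the first `i` variables -/
noncomputable def E (i j : ℕ) : A := ∑ t ∈ (range i).powersetCard j, ∏ k ∈ t, X k

noncomputable def D (N : ℕ) : P → MvPolynomial ℕ A :=
  op (fun i => C (X i)) X (HL N) (dl 1)

noncomputable def K (N : ℕ) (m : ℕ →₀ ℕ) : P → A := fun v => coeff m (D N v)

lemma K_DD (N : ℕ) (m : ℕ →₀ ℕ) : DD N N (K N m) := by
  intro v _ i hi
  have := dd_gen (fun i => C (X i)) X N i hi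
    (MvPolynomial.map ((rename (s i) : A →ₐ[ℤ] A) : A →+* A) :
      MvPolynomial ℕ A →+* MvPolynomial ℕ A) (by ext1 j; simp) (by ext1 j; simp) v
  have e := congrArg (coeff m) this
  rw [← map_sub, coeff_C_mul, coeff_sub, coeff_map] at e
  have e2 : U i (K N m) v = coeff m (U i (D N) v) := by
    simp only [U_apply, K]; split_ifs <;> simp
  rw [e2]
  exact e

lemma K_trunc (N : ℕ) (m : ℕ →₀ ℕ) (v : P) : trunc (N - 1) (K N m v) = K N m v := by
  have := fix_gen (fun i => C (X i)) X N
    (MvPolynomial.map ((trunc (N - 1) : A →ₐ[ℤ] A) : A →+* A) :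
      MvPolynomial ℕ A →+* MvPolynomial ℕ A)
    (fun i hi => by simp [trunc, show i < N - 1 by omega]) (by ext1 j; simp) v
  have e := congrArg (coeff m) this
  rw [coeff_map] at e
  exact e

lemma K_pos (N : ℕ) (m : ℕ →₀ ℕ) (v : P) : 0 ≤ constantCoeff (K N m v) := by
  have e : constantCoeff (K N m v) =
      coeff m (MvPolynomial.map (constantCoeff : A →+* ℤ) (D N v)) := by
    rw [coeff_map]; rfl
  have e2 : MvPolynomial.map (constantCoeff : A →+* ℤ) (D N v) = op 0 X (HL N) (dl 1) v := by
    unfold D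
    rw [op_map, comp_dl]
    have e1 : (MvPolynomial.map (constantCoeff : A →+* ℤ) : MvPolynomial ℕ A →+* A) ∘
        (fun i : ℕ => C (X i)) = 0 := by ext1 j; simp
    have e2 : (MvPolynomial.map (constantCoeff : A →+* ℤ) : MvPolynomial ℕ A →+* A) ∘ X = X := by
      ext1 j; simp
    rw [e1, e2]
  rw [e, e2]
  refine op_ind (0 : ℕ → A) X (fun F => ∀ v m, 0 ≤ coeff m (F v)) (HL N) ?_ (dl 1) ?_ v m
  · intro p _ F hF v m
    rw [h_apply, coeff_add, Pi.zero_apply, zero_add, coeff_X_mul', U_apply]
    refine add_nonneg (hF v m) ?_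
    split_ifs
    · exact hF _ _
    · simp
    · simp
  · intro v m
    unfold dl
    split_ifs
    · rw [coeff_one]; split_ifs <;> simp
    · simp

lemma prod_E (r j : ℕ) : ∏ i ∈ range r, (C (X i) + X j : MvPolynomial ℕ A) =
    ∑ t ∈ range (r + 1), monomial (Finsupp.single j (r - t)) (E r t) := by
  rw [prod_add, sum_powerset, card_range]
  refine sum_congr rfl fun t _ => ?_
  unfold E
  rw [map_sum]
  refine sum_congr rfl fun u hu => ?_
  rw [mem_powersetCard] at hu
  rw [prod_const, card_sdiff_of_subset hu.1, card_range, hu.2, ← map_prod, X_pow_eq_monomial,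
    C_mul_monomial, mul_one]

lemma K_top (N : ℕ) (a : ℕ → ℕ) (ha : ∀ i, a i ≤ i) :
    K N (∑ j : Fin N, Finsupp.single (j : ℕ) (N - 1 - j - a (N - 1 - j))) (w0 N) =
      ∏ r ∈ range N, E r (a r) := by
  unfold K D
  rw [top, prod_comm' (t' := range N) (s' := fun j => range (N - 1 - j))
    (by intro i j; simp only [mem_range]; omega)]
  simp only [prod_E]
  rw [← Fin.prod_univ_eq_prod_range (fun j => ∑ t ∈ range (N - 1 - j + 1),
    monomial (Finsupp.single j (N - 1 - j - t)) (E (N - 1 - j) t)) N, prod_univ_sum, coeff_sum,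
    sum_eq_single (fun j : Fin N => a (N - 1 - j))]
  · rw [← monomial_sum_prod, coeff_monomial, if_pos rfl,
      Fin.prod_univ_eq_prod_range (fun j => E (N - 1 - j) (a (N - 1 - j))) N]
    exact prod_range_reflect (fun r => E r (a r)) N
  · intro f hf hne
    rw [← monomial_sum_prod, coeff_monomial, if_neg]
    intro e
    apply hne
    ext j
    have e' := DFunLike.congr_fun e (j : ℕ)
    simp only [Finsupp.finsetSum_apply, Finsupp.single_apply, Fin.val_inj, sum_ite_eq', mem_univ,
      if_true] at e'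
    have h1 := Fintype.mem_piFinset.1 hf j
    rw [mem_range] at h1
    have := ha (N - 1 - j)
    omega
  · intro h
    exfalso
    apply h
    rw [Fintype.mem_piFinset]
    intro j
    have := ha (N - 1 - j)
    rw [mem_range]; omega

theorem single {N : ℕ} {w : P} (hw : InS N w) {ι : Type} (S : Finset ι) (c : ι → ℤ)
    (a : ι → ℕ → ℕ) (ha : ∀ b ∈ S, ∀ i, a b i ≤ i) (hc : ∀ b ∈ S, 0 ≤ c b)
    (h : G N w = ∑ b ∈ S, c b • ∏ r ∈ range N, E r (a b r)) :
    ∃ b ∈ S, G N w = ∏ r ∈ range N, E r (a b r) := by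
  set u := w0 N * w⁻¹ with hu
  have huS : InS N u := (InS_w0 N).mul hw.inv
  have tw : T u (G N) (w0 N) = G N w := by
    rw [T, if_pos (Cw_top huS)]; simp [hu]
  set m : ι → ℕ →₀ ℕ := fun b =>
    ∑ j : Fin N, Finsupp.single (j : ℕ) (N - 1 - j - a b (N - 1 - j)) with hm
  have kt : ∀ b ∈ S, K N (m b) (w0 N) = ∏ r ∈ range N, E r (a b r) :=
    fun b hb => K_top N (a b) (ha b hb)
  have z := down ((T_DD u N).sub (DD.sum S c (fun b => K N (m b)) fun b _ => K_DD N (m b))) (by
    rw [Pi.sub_apply, tw, h, sub_eq_zero]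
    exact sum_congr rfl fun b hb => by rw [kt b hb])
  have z2 : ∀ v, InS N v → (dl u v : ℤ) = ∑ b ∈ S, c b * constantCoeff (K N (m b) v) := by
    intro v hv
    have := z v hv
    rw [Pi.sub_apply, sub_eq_zero] at this
    rw [← T_const u N v, this, map_sum]
    exact sum_congr rfl fun b _ => by rw [map_zsmul, smul_eq_mul]
  have nn : ∀ v, ∀ b ∈ S, 0 ≤ c b * constantCoeff (K N (m b) v) :=
    fun v b hb => mul_nonneg (hc b hb) (K_pos N _ v)
  have : ∃ b ∈ S, c b * constantCoeff (K N (m b) u) ≠ 0 := by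
    refine exists_ne_zero_of_sum_ne_zero ?_
    rw [← z2 u huS]; simp [dl]
  obtain ⟨b, hb, hne⟩ := this
  refine ⟨b, hb, ?_⟩
  have c1 : 0 < c b := lt_of_le_of_ne (hc b hb) (left_ne_zero_of_mul hne).symm
  have z3 := up ((T_DD u N).sub (K_DD N (m b)))
    (fun v _ => by rw [Pi.sub_apply, map_sub, T_trunc, K_trunc]) (fun v hv => by
      rw [Pi.sub_apply, map_sub, T_const, sub_eq_zero]
      have l := single_le_sum (nn v) hb
      rw [← z2 v hv] at l
      have p := K_pos N (m b) v
      by_cases e : v = u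
      · rw [e] at l p ⊢
        have := right_ne_zero_of_mul hne
        simp only [dl, if_true] at l ⊢
        have p' : 1 ≤ constantCoeff (K N (m b) u) := by omega
        nlinarith
      · simp only [dl, e, if_false] at l ⊢
        nlinarith) (w0 N) (InS_w0 N)
  rw [Pi.sub_apply, tw, kt b hb, sub_eq_zero] at z3
  exact z3

end Pool.Agent.H.MP_c3854d_co
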